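import Pool.Agent.E8helper20.CTM.StmA
import Pool.Agent.E8helper81.CTL3.FactA

/-!
# Project CTM, part M16: the data of a pair
-/

set_option autoImplicit false
set_option linter.unusedVariables false
set_option linter.unusedSectionVars false

open scoped Classical

namespace Pool.Agent.E8helper81.CTM

open NumberField Finset
open Pool.Agent.Y692.QS (Ei w nr toC)
open Pool.Agent.Y715.T.RecG (Pq)
open Pool.Agent.Y703.CT (Dt pD)
open Pool.Agent.Y715.T.Rec (cs nn)
open Pool.Agent.R419.KF (wt)
open Pool.Agent.E8helper20.CTK3 (el3)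
open Pool.Agent.E8helper20.CTM
open Pool.Agent.E8helper81.CTL3 (wt_ne)

/-- a set which is closed under the addition and the scalars -/
lemma card_pow3 {V : Type} [AddCommGroup V] [Module (ZMod 3) V] [Finite V] (P : V → Prop)
    (h0 : P 0) (ha : ∀ x y, P x → P y → P (x + y)) (hs : ∀ (c : ZMod 3) x, P x → P (c • x)) :
    ∃ r : ℕ, Nat.card {x : V // P x} = 3 ^ r := by
  let W : Submodule (ZMod 3) V :=
    { carrier := {v | P v}
      zero_mem' := h0
      add_mem' := fun {a b} h1 h2 => ha a b h1 h2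
      smul_mem' := fun c a h => hs c a h }
  have h2 : Nat.card W = 3 ^ Module.finrank (ZMod 3) W := by
    rw [Module.natCard_eq_pow_finrank (K := ZMod 3), Nat.card_zmod]
  exact ⟨_, h2⟩

lemma pow1 {J : Type} [Fintype J] (π : J → Ei) (e : J → ZMod 3) (a b : ZMod 3) :
    ∃ r : ℕ, nK1 a b π e = 3 ^ r := by
  unfold nK1
  refine card_pow3 (V := J → ZMod 3)
    (fun v => ∀ j, ∑ i, e i * cs (π j) (π i) * (v i - v j) = lf a b (π j) * v j) ?_ ?_ ?_
  · intro j
    simp
  · intro x y hx hy j
    have h1 := hx j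
    have h2 := hy j
    have h3 : ∑ i, e i * cs (π j) (π i) * ((x + y) i - (x + y) j) =
        ∑ i, e i * cs (π j) (π i) * (x i - x j) +
        ∑ i, e i * cs (π j) (π i) * (y i - y j) := by
      rw [← Finset.sum_add_distrib]
      exact Finset.sum_congr rfl fun i _ => by rw [Pi.add_apply, Pi.add_apply]; ring
    rw [h3, h1, h2, Pi.add_apply, mul_add]
  · intro c x hx j
    have h1 := hx j
    have h3 : ∑ i, e i * cs (π j) (π i) * ((c • x) i - (c • x) j) =
        c * ∑ i, e i * cs (π j) (π i) * (x i - x j) := by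
      rw [Finset.mul_sum]
      exact Finset.sum_congr rfl fun i _ => by
        rw [Pi.smul_apply, Pi.smul_apply, smul_eq_mul, smul_eq_mul]; ring
    rw [h3, h1, Pi.smul_apply, smul_eq_mul]
    ring

lemma pow2 {J : Type} [Fintype J] (π : J → Ei) (e : J → ZMod 3) (b : ZMod 3) :
    ∃ r : ℕ, nK2 b π e = 3 ^ r := by
  unfold nK2
  refine card_pow3 (V := (J → ZMod 3) × ZMod 3)
    (fun p => (∀ j, ∑ i, e i * cs (π j) (π i) * (p.1 i - p.1 j) + p.2 * c2 (π j) =
      (b * c2 (π j) - c3 (π j)) * p.1 j) ∧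
    ∑ j, e j * c2 (π j) * p.1 j = b * p.2) ?_ ?_ ?_
  · constructor
    · intro j
      simp
    · simp
  · intro x y hx hy
    refine ⟨fun j => ?_, ?_⟩
    · have h1 := hx.1 j
      have h2 := hy.1 j
      have h3 : ∑ i, e i * cs (π j) (π i) * ((x + y).1 i - (x + y).1 j) =
          ∑ i, e i * cs (π j) (π i) * (x.1 i - x.1 j) +
          ∑ i, e i * cs (π j) (π i) * (y.1 i - y.1 j) := by
        rw [← Finset.sum_add_distrib]
        exact Finset.sum_congr rfl fun i _ => by
          rw [Prod.fst_add, Pi.add_apply, Pi.add_apply]; ring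
      rw [h3, Prod.fst_add, Prod.snd_add, Pi.add_apply]
      linear_combination h1 + h2
    · have h1 := hx.2
      have h2 := hy.2
      have h3 : ∑ j, e j * c2 (π j) * (x + y).1 j =
          ∑ j, e j * c2 (π j) * x.1 j + ∑ j, e j * c2 (π j) * y.1 j := by
        rw [← Finset.sum_add_distrib]
        exact Finset.sum_congr rfl fun i _ => by
          rw [Prod.fst_add, Pi.add_apply]; ring
      rw [h3, Prod.snd_add, h1, h2]
      ring
  · intro c x hx
    refine ⟨fun j => ?_, ?_⟩
    · have h1 := hx.1 j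
      have h3 : ∑ i, e i * cs (π j) (π i) * ((c • x).1 i - (c • x).1 j) =
          c * ∑ i, e i * cs (π j) (π i) * (x.1 i - x.1 j) := by
        rw [Finset.mul_sum]
        exact Finset.sum_congr rfl fun i _ => by
          rw [Prod.smul_fst, Pi.smul_apply, Pi.smul_apply, smul_eq_mul, smul_eq_mul]; ring
      rw [h3, Prod.smul_fst, Prod.smul_snd, Pi.smul_apply, smul_eq_mul, smul_eq_mul]
      linear_combination c * h1
    · have h1 := hx.2
      have h3 : ∑ j, e j * c2 (π j) * (c • x).1 j = c * ∑ j, e j * c2 (π j) * x.1 j := by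
        rw [Finset.mul_sum]
        exact Finset.sum_congr rfl fun i _ => by
          rw [Prod.smul_fst, Pi.smul_apply, smul_eq_mul]; ring
      rw [h3, Prod.smul_snd, smul_eq_mul, h1]
      ring

/-- the data of a pair -/
theorem dataM {M S : Finset Ei} (hS : ∀ q ∈ S, Pq q) (hM : M ⊆ S) (hne' : S.Nonempty) :
    ∃ (n : ℕ) (π : Fin (n + 1) → Ei) (e : Fin (n + 1) → ZMod 3), Dt π e ∧ el3 M S = pD π e ∧
      (∀ a b : ZMod 3, n1 a b M S = nK1 a b π e) ∧ ∀ b : ZMod 3, n2 b M S = nK2 b π e := by
  have hne : S.card ≠ 0 := (card_pos.2 hne').ne'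
  obtain ⟨n, hn⟩ := Nat.exists_eq_succ_of_ne_zero hne
  obtain ⟨eq, -⟩ : ∃ eq : S ≃ Fin (n + 1), True := ⟨S.equivFinOfCardEq hn, trivial⟩
  obtain ⟨π, hπ⟩ : ∃ π : Fin (n + 1) → Ei, π = fun i => (eq.symm i : Ei) := ⟨_, rfl⟩
  have hmem : ∀ i, π i ∈ S := fun i => by rw [hπ]; exact (eq.symm i).2
  have hinj : Function.Injective π := fun a b hab => eq.symm.injective (Subtype.ext (by
    rw [hπ] at hab
    exact hab))
  have himg : Finset.univ.image π = S := by
    ext q
    rw [mem_image]
    constructor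
    · rintro ⟨i, -, rfl⟩
      exact hmem i
    · intro hq
      refine ⟨eq ⟨q, hq⟩, mem_univ _, ?_⟩
      simp [hπ]
  refine ⟨n, π, fun i => wt M (π i), ⟨fun i => hS _ (hmem i), fun i j hij hd => ?_,
    fun i => wt_ne M _⟩, ?_, fun a b => ?_, fun b => ?_⟩
  · exact hij (hinj (Pool.Agent.Y699.E.eq_of_dvd (hS _ (hmem j)) (hS _ (hmem i)) hd)).symm
  · unfold pD el3
    have h2 : ∏ q ∈ S, q ^ (wt M q).val = ∏ i, π i ^ (wt M (π i)).val := by
      rw [← himg, prod_image fun a _ b _ h => hinj h]
    rw [← h2]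
    have h4 : ∏ q ∈ M, q = ∏ q ∈ S, if q ∈ M then q else 1 := by
      rw [prod_ite_mem, inter_eq_right.2 hM]
    rw [h4, ← prod_mul_distrib]
    refine prod_congr rfl fun q _ => ?_
    unfold wt
    split_ifs with hq
    · have : (2 : ZMod 3).val = 2 := by decide
      rw [this, pow_two]
    · have : (1 : ZMod 3).val = 1 := by decide
      rw [this, pow_one, mul_one]
  · unfold n1 nK1
    refine Nat.card_congr ((Equiv.arrowCongr eq (Equiv.refl (ZMod 3))).subtypeEquiv fun v => ?_)
    subst hπ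
    constructor
    · intro h j
      have h1 := h (eq.symm j)
      rw [← Equiv.sum_comp eq.symm] at h1
      exact h1
    · intro h x
      obtain ⟨j, rfl⟩ := eq.symm.surjective x
      rw [← Equiv.sum_comp eq.symm]
      exact h j
  · unfold n2 nK2
    refine Nat.card_congr (((Equiv.arrowCongr eq (Equiv.refl (ZMod 3))).prodCongr
      (Equiv.refl (ZMod 3))).subtypeEquiv fun p => ?_)
    subst hπ
    constructor
    · intro h
      refine ⟨fun j => ?_, ?_⟩
      · have h1 := h.1 (eq.symm j)
        rw [← Equiv.sum_comp eq.symm] at h1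
        exact h1
      · have h1 := h.2
        rw [← Equiv.sum_comp eq.symm] at h1
        exact h1
    · intro h
      refine ⟨fun x => ?_, ?_⟩
      · obtain ⟨j, rfl⟩ := eq.symm.surjective x
        rw [← Equiv.sum_comp eq.symm]
        exact h.1 j
      · rw [← Equiv.sum_comp eq.symm]
        exact h.2

theorem t_DATM : S_DATM := by
  refine ⟨?_, ?_⟩
  · intro J _ π e
    exact ⟨fun a b => pow1 π e a b, fun b => pow2 π e b⟩
  · intro M S hS hM hne
    exact dataM hS hM hne

end Pool.Agent.E8helper81.CTM
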