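import Pool.Agent.E8helper20.CTM.StmA
import Pool.Agent.Y100.CT.CUB3

/-!
# Project CTM, part M12: local solutions of the diagonal cubic at three, type 2
-/

set_option autoImplicit false
set_option linter.unusedSectionVars false
set_option linter.unusedVariables false

namespace Pool.Agent.E8helper81.CTM

open Pool.Agent.Y692.QS
open Pool.Agent.Y715.T.Gi Pool.Agent.Y715.T.Nr Pool.Agent.Y715.T.Df Pool.Agent.Y715.T.Ell
open Pool.Agent.Y715.T.Red Pool.Agent.Y715.T.Thr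
open Pool.Agent.Y703.CT
open Pool.Agent.Y100.CT.CUB3 (cube_res root norm_nine)
open Pool.Agent.E8helper20.CTM
open Pool.Agent.E8helper20.CTK3 (yd)

lemma nine_dvd {z : Ei} (h1 : (9 : ℤ) ∣ z.re) (h2 : (9 : ℤ) ∣ z.im) : (9 : Ei) ∣ z := by
  obtain ⟨m, hm⟩ := h1
  obtain ⟨n, hn⟩ := h2
  refine ⟨(m : Ei) + (n : Ei) * w, ?_⟩
  have h3 : ((z.re : ℤ) : Ei) = 9 * (m : Ei) := by
    exact_mod_cast congrArg (Int.cast : ℤ → Ei) hm
  have h4 : ((z.im : ℤ) : Ei) = 9 * (n : Ei) := by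
    exact_mod_cast congrArg (Int.cast : ℤ → Ei) hn
  conv_lhs => rw [eta z]
  linear_combination h3 + w * h4

lemma coord (x d : Ei) (p1 p2 q1 q2 : ℤ) :
    ((⟨p1, p2⟩ : Ei) * (1 + 6 * x) + ⟨q1, q2⟩ * (1 + 3 * x + 3 * d) - 1).re =
      p1 * (1 + 6 * x.re) - p2 * (6 * x.im) + q1 * (1 + 3 * x.re + 3 * d.re) -
        q2 * (3 * x.im + 3 * d.im) - 1 ∧
    ((⟨p1, p2⟩ : Ei) * (1 + 6 * x) + ⟨q1, q2⟩ * (1 + 3 * x + 3 * d) - 1).im =
      p1 * (6 * x.im) + p2 * (1 + 6 * x.re) - p2 * (6 * x.im) +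
        q1 * (3 * x.im + 3 * d.im) + q2 * (1 + 3 * x.re + 3 * d.re) -
        q2 * (3 * x.im + 3 * d.im) := by
  have r6 : (6 : Ei).re = 6 := rfl
  have i6 : (6 : Ei).im = 0 := rfl
  have r3 : (3 : Ei).re = 3 := rfl
  have i3 : (3 : Ei).im = 0 := rfl
  have r1 : (1 : Ei).re = 1 := rfl
  have i1 : (1 : Ei).im = 0 := rfl
  constructor
  · simp only [QuadraticAlgebra.re_sub, QuadraticAlgebra.re_add, QuadraticAlgebra.im_add,
      mul_re, mul_im, r6, i6, r3, i3, r1, i1]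
    ring
  · simp only [QuadraticAlgebra.im_sub, QuadraticAlgebra.re_add, QuadraticAlgebra.im_add,
      mul_re, mul_im, r6, i6, r3, i3, r1, i1]
    ring

/-- the congruence -/
lemma core (b t : ℕ) (hb : b ≤ 2) (ht : t ≤ 2) (x d : Ei)
    (h1 : (3 : ℤ) ∣ x.re + x.im + b * t)
    (h2 : (3 : ℤ) ∣ x.im - (b ^ 2 + (d.re + d.im)) * t) :
    ∃ ε z : Ei, (ε = 0 ∨ ε = 1 ∨ ε = -1) ∧
      (w ^ t * (1 + 3 * x)) ^ 2 + (w ^ t * (1 + 3 * x)) * (lam * w ^ b * (1 + 3 * d)) * ε =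
        1 + 9 * z := by
  have hcomb : ∀ (ε : Ei) (p1 p2 q1 q2 : ℤ), w ^ (2 * t) = ⟨p1, p2⟩ →
      w ^ (t + b) * lam * ε = ⟨q1, q2⟩ →
      (9 : ℤ) ∣ p1 * (1 + 6 * x.re) - p2 * (6 * x.im) + q1 * (1 + 3 * x.re + 3 * d.re) -
        q2 * (3 * x.im + 3 * d.im) - 1 →
      (9 : ℤ) ∣ p1 * (6 * x.im) + p2 * (1 + 6 * x.re) - p2 * (6 * x.im) +
        q1 * (3 * x.im + 3 * d.im) + q2 * (1 + 3 * x.re + 3 * d.re) -
        q2 * (3 * x.im + 3 * d.im) → ∃ z : Ei,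
      (w ^ t * (1 + 3 * x)) ^ 2 + (w ^ t * (1 + 3 * x)) * (lam * w ^ b * (1 + 3 * d)) * ε =
      1 + 9 * z := by
    intro ε p1 p2 q1 q2 hp hq h3 h4
    rw [← (coord x d p1 p2 q1 q2).1] at h3
    rw [← (coord x d p1 p2 q1 q2).2, ← hp, ← hq] at h4
    rw [← hp, ← hq] at h3
    obtain ⟨z, hz⟩ := nine_dvd h3 h4
    exact ⟨z + w ^ (2 * t) * x ^ 2 + w ^ (t + b) * lam * ε * x * d, by linear_combination hz⟩
  interval_cases t
  · obtain ⟨z, hz⟩ := hcomb 0 1 0 0 0 (by decide) (by rw [mul_zero]; rfl)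
      (by push_cast at h1 h2; omega) (by push_cast at h1 h2; omega)
    exact ⟨0, z, Or.inl rfl, hz⟩
  · interval_cases b
    · obtain ⟨z, hz⟩ := hcomb (-1) (-1) (-1) 2 1 (by decide) (by decide)
        (by push_cast at h1 h2; omega) (by push_cast at h1 h2; omega)
      exact ⟨-1, z, Or.inr (Or.inr rfl), hz⟩
    · obtain ⟨z, hz⟩ := hcomb (-1) (-1) (-1) (-1) 1 (by decide) (by decide)
        (by push_cast at h1 h2; omega) (by push_cast at h1 h2; omega)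
      exact ⟨-1, z, Or.inr (Or.inr rfl), hz⟩
    · obtain ⟨z, hz⟩ := hcomb (-1) (-1) (-1) (-1) (-2) (by decide) (by decide)
        (by push_cast at h1 h2; omega) (by push_cast at h1 h2; omega)
      exact ⟨-1, z, Or.inr (Or.inr rfl), hz⟩
  · interval_cases b
    · obtain ⟨z, hz⟩ := hcomb 1 0 1 1 (-1) (by decide) (by decide)
        (by push_cast at h1 h2; omega) (by push_cast at h1 h2; omega)
      exact ⟨1, z, Or.inr (Or.inl rfl), hz⟩
    · obtain ⟨z, hz⟩ := hcomb 1 0 1 1 2 (by decide) (by decide)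
        (by push_cast at h1 h2; omega) (by push_cast at h1 h2; omega)
      exact ⟨1, z, Or.inr (Or.inl rfl), hz⟩
    · obtain ⟨z, hz⟩ := hcomb 1 0 1 (-2) (-1) (by decide) (by decide)
        (by push_cast at h1 h2; omega) (by push_cast at h1 h2; omega)
      exact ⟨1, z, Or.inr (Or.inl rfl), hz⟩

lemma w_pow_mod (t : ℕ) : (w : Ei) ^ t = w ^ (t % 3) := by
  have h3 : (w : Ei) ^ 3 = 1 := by decide
  exact pow_eq_pow_mod t h3

/-- **M12** -/
theorem t_CUBM2 : S_CUBM2 := by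
  intro b hb _ I hI B D t hB hD h2 h3
  obtain ⟨x, hx⟩ := hB
  obtain ⟨d, hd⟩ := hD
  have eB : B = 1 + 3 * x := by linear_combination hx
  have eD : D = 1 + 3 * d := by linear_combination hd
  have r3 : (3 : Ei).re = 3 := rfl
  have i3 : (3 : Ei).im = 0 := rfl
  have r1 : (1 : Ei).re = 1 := rfl
  have i1 : (1 : Ei).im = 0 := rfl
  have dig : ∀ (C y : Ei), C = 1 + 3 * y → xd C = (y.re : ZMod 3) ∧ yd C = (y.im : ZMod 3) := by
    intro C y hC
    have hre : C.re = 1 + 3 * y.re := by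
      rw [hC, QuadraticAlgebra.re_add, mul_re, r3, i3, r1]
      ring
    have him : C.im = 3 * y.im := by
      rw [hC, QuadraticAlgebra.im_add, mul_im, r3, i3, i1]
      ring
    constructor
    · unfold xd
      rw [hre]
      congr 1
      omega
    · unfold yd
      rw [him]
      congr 1
      omega
  obtain ⟨xB, yB⟩ := dig B x eB
  obtain ⟨xD, yD⟩ := dig D d eD
  unfold c3 c2 at h3
  unfold c2 at h2
  rw [xB, yB] at h2
  rw [yB, xD, yD] at h3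
  have ht : (t : ZMod 3) = ((t % 3 : ℕ) : ZMod 3) := by rw [ZMod.natCast_mod]
  obtain ⟨s, hs⟩ : ∃ s, s = t % 3 := ⟨_, rfl⟩
  have hs2 : s ≤ 2 := by omega
  rw [ht, ← hs] at h2 h3
  have h4 : (3 : ℤ) ∣ x.re + x.im + b * s := by
    apply (ZMod.intCast_zmod_eq_zero_iff_dvd _ 3).1
    push_cast
    linear_combination -h2
  have h5 : (3 : ℤ) ∣ x.im - (b ^ 2 + (d.re + d.im)) * s := by
    apply (ZMod.intCast_zmod_eq_zero_iff_dvd _ 3).1
    push_cast
    linear_combination h3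
  obtain ⟨ε, z, hε, hz⟩ := core b s hb hs2 x d h4 h5
  have hwt : (w : Ei) ^ t = w ^ s := by rw [w_pow_mod, ← hs]
  rw [← eB, ← eD, ← hwt] at hz
  have hε3 := cube_res hε
  have hfix : ∀ z : Ei, ∀ τ : Au 3, τ I = I → τ (ev I hI z) = ev I hI z :=
    fun z τ hτ => ev_fix hI hτ z
  obtain ⟨r, hr, hr0, hrf⟩ := root hI (c := ev I hI (1 + 9 * z)) (hfix _) (by
    rw [map_add, map_one, add_sub_cancel_left]
    exact norm_nine hI z)
  refine ⟨r, 1, ev I hI ε, ⟨fun τ hτ => ⟨hrf τ hτ, map_one τ, hfix _ τ hτ⟩, Or.inl hr0, ?_⟩⟩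
  rw [hr, ← hz]
  conv_lhs => rw [← hε3]
  simp only [map_add, map_mul, map_pow]
  ring

end Pool.Agent.E8helper81.CTM
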